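import Pool.Agent.Lib.MP_0fa4a2_gt.Final
import Pool.Agent.Lib.MP_0fa4a2_gt.LcFinal

/-!
The statement that every perfectly normal non-archimedean space with a point-countable base is
metrizable holds in a model of ZFC if there is a supercompact cardinal, and it implies that some
inner model of ZFC has a Mahlo cardinal.
-/

namespace Pool.Agent.Results.MP_0fa4a2_gt.Strength

open TopologicalSpace Pool.Agent.Lib.MP_2739cb_lc Pool.Agent.Lib.MP_783f50_lc
  Pool.Agent.Lib.MP_0fa4a2_gt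

universe u

theorem result :
    ((∃ κ : Cardinal.{u}, IsSupercompact κ) →
      ∃ (M : Type (u + 1)) (E : M → M → Prop), IsZFC E ∧ ∃ w, IsOmega E w ∧
        ∀ X τ, IsTop E X τ → IsPerfectlyNormal E w X τ →
          (∃ B, IsTopBase E τ B ∧ IsRankOne E X B) →
          (∃ B, IsTopBase E τ B ∧ IsPointCountable E w X B) →
          ∃ ρ, IsUltrametricFor E w X τ ρ) ∧
    ((∀ (X : Type u) [TopologicalSpace X], T1Space X → PerfectlyNormalSpace X →
        (∃ B : Set (Set X), IsTopologicalBasis B ∧ ∀ p, IsChain (· ⊆ ·) {b ∈ B | p ∈ b}) →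
        (∃ B : Set (Set X), IsTopologicalBasis B ∧ ∀ p, {b ∈ B | p ∈ b}.Countable) →
        MetrizableSpace X) →
      ∃ W : Set ZFSet.{u}, (∀ x ∈ W, ∀ y ∈ x, y ∈ W) ∧ (∀ o : Ordinal.{u}, o.toZFSet ∈ W) ∧
        IsZFC (fun a b : W => a.1 ∈ b.1) ∧ ∃ κ : W, Lc.IsMahlo (fun a b : W => a.1 ∈ b.1) κ) := by
  refine ⟨fun ⟨κ, hκ⟩ => ?_, fun h => ?_⟩
  · obtain ⟨k, h1, h2⟩ := exists_inaccessible hκ
    obtain ⟨Q, _, _, h3⟩ := exists_first_forcing h1
    have : Fact (First k Q) := ⟨h3⟩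
    exact ⟨Pool.Agent.Lib.MP_2739cb_lc.Mod (Two k Q κ.ord.ToType), _, ZM.zfc, _, ZM.hw,
      fun _ _ => main_internal (ax fun I _ => exists_ms hκ h2 I)⟩
  · obtain ⟨κ, hκ⟩ := Lc.exists_mahloM h
    exact ⟨Lc.WW, fun _ hx _ hy => Lc.WW_trans hx hy, Lc.ord_mem_WW, Lc.W_zfc, Lc.ow κ,
      hκ.isMahlo⟩

end Pool.Agent.Results.MP_0fa4a2_gt.Strength
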